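import Pool.Agent.N647.FG.Thm

/-!
# Primes in arithmetic progressions through the points of a family of vectors modulo a prime (helper246)

The criterion of helper647 (`Pool.Agent.N647.FG.Thm`) for the integers near the points of a family, adapted to
the terms of arithmetic progressions with given differences through the points.
-/

set_option autoImplicit false

namespace Pool.Agent.Run7.h246.LP

open Finset Filter
open Pool.Agent.W147.PS (ff ff_compare ev_pow)
open Pool.Agent.N647.FG (fam fam_equi)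

/-- the numbers `v + k h` with `|k| ≤ B` all have a prime factor at most `y` -/
def FarS (h v : ℤ) (B y : ℝ) : Prop :=
  ∀ k : ℤ, |(k : ℝ)| ≤ B → ∃ l : ℕ, l.Prime ∧ (l : ℝ) ≤ y ∧ (l : ℤ) ∣ v + k * h

/-- an inverse of `h` modulo all small numbers -/
lemma exists_inv (h : ℤ) (Q : ℕ) (hQ : ∀ l : ℕ, l.Prime → l ≤ Q → ¬ (l : ℤ) ∣ h) :
    ∃ e : ℤ, ∀ q : ℕ, 1 ≤ q → q ≤ Q → (q : ℤ) ∣ h * e - 1 := by
  have hcop : IsCoprime h (Q.factorial : ℤ) := by
    rw [Int.isCoprime_iff_gcd_eq_one, ← Int.natAbs_natCast Q.factorial]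
    by_contra hne
    obtain ⟨l, hl, hdvd⟩ := Nat.exists_prime_and_dvd hne
    have h1 : l ∣ h.natAbs := by
      have := Nat.dvd_trans hdvd (Nat.gcd_dvd_left h.natAbs ((Q.factorial : ℤ).natAbs.cast : ℤ).natAbs)
      exact this
    have h2 : l ∣ Q.factorial := by
      have := Nat.dvd_trans hdvd (Nat.gcd_dvd_right h.natAbs ((Q.factorial : ℤ).natAbs.cast : ℤ).natAbs)
      simpa using this
    exact hQ l hl ((Nat.Prime.dvd_factorial hl).1 h2) (Int.natCast_dvd.2 h1)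
  obtain ⟨a, b, hab⟩ := hcop
  refine ⟨a, fun q hq1 hqQ => ?_⟩
  have h1 : (q : ℤ) ∣ (Q.factorial : ℤ) := by
    exact_mod_cast Nat.dvd_factorial (by omega) hqQ
  have h2 : h * a - 1 = -(b * (Q.factorial : ℤ)) := by linarith
  rw [h2]
  exact (Dvd.dvd.mul_left h1 b).neg_right

open scoped Classical in
/-- **Progressions through the points of a family of vectors modulo `p`**: if the non-trivial exponential sums
of a family of vectors modulo `p` of length `r` save `p ^ ε`, then every box of sides between `p ^ δ` and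
`p` and volume at least `p ^ (r - ε + δ)` contains at least `p ^ (-δ)` times the expected number of
vectors of integers which reduce to members of the family and such that the progressions with differences
`h j` through all the coordinates have long pieces all of whose terms have prime factors `≤ p ^ δ`. -/
theorem mainS (r : ℕ) (hr : 1 ≤ r) (ε δ : ℝ) (hδ : 0 < δ) (hδ1 : δ ≤ 1) :
    ∃ κ : ℝ, 0 < κ ∧ ∃ p₀ : ℕ, ∀ (p : ℕ) [Fact p.Prime], p₀ ≤ p →
    ∀ (ι : Type) (S : Finset ι) (R : ι → Fin r → ZMod p), S.Nonempty →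
    (∀ α : Fin r → ZMod p, α ≠ 0 →
      ‖∑ i ∈ S, (ZMod.stdAddChar (∑ j, α j * R i j) : ℂ)‖ ≤ S.card * (p : ℝ) ^ (-ε)) →
    ∀ h : Fin r → ℤ, (∀ j, ∀ l : ℕ, l.Prime → (l : ℝ) ≤ (p : ℝ) ^ δ → ¬ (l : ℤ) ∣ h j) →
    ∀ (M : Fin r → ℤ) (L : Fin r → ℕ), (∀ j, L j ≤ p) → (∀ j, (p : ℝ) ^ δ ≤ L j) →
      (p : ℝ) ^ ((r : ℝ) - ε + δ) ≤ ∏ j, (L j : ℝ) →
    (p : ℝ) ^ (-δ) * (S.card * ∏ j, ((L j : ℝ) / p)) ≤
      (((fam S R M L).filter (fun z => ∀ j, FarS (h j) (z.2 j) (κ * ff p) ((p : ℝ) ^ δ))).card : ℝ) := by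
  obtain ⟨κ, hκ, X₀, hc⟩ := Pool.Agent.Y961.JR.critJ r hr
  have hrR : (1 : ℝ) ≤ r := by exact_mod_cast hr
  set θ : ℝ := δ / (4 * r + 2) with hθ
  have hθ0 : 0 < θ := by positivity
  have hθe : θ * (4 * r + 2) = δ := by rw [hθ]; field_simp
  have hθδ : θ ≤ δ := by nlinarith
  have hθ1 : θ ≤ 1 := hθδ.trans hδ1
  refine ⟨κ * (θ / 32), by positivity, ?_⟩
  have hlog : ∀ᶠ x : ℝ in atTop, (Real.log x + 3) ^ r ≤ x ^ (θ / 2) := by
    have h1 := (isLittleO_log_rpow_atTop (show (0 : ℝ) < θ / 2 / r by positivity)).def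
      (show (0 : ℝ) < 1 / 2 by norm_num)
    have h2 := (tendsto_rpow_atTop (show (0 : ℝ) < θ / 2 / r by positivity)).eventually_ge_atTop 6
    filter_upwards [h1, h2, eventually_ge_atTop (1 : ℝ)] with x h1 h2 h3
    have h4 := Real.log_nonneg h3
    rw [Real.norm_eq_abs, abs_of_nonneg h4, Real.norm_eq_abs, abs_of_nonneg (by positivity)] at h1
    calc (Real.log x + 3) ^ r ≤ (x ^ (θ / 2 / r)) ^ r := by
          apply pow_le_pow_left₀ (by linarith)
          linarith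
      _ = x ^ (θ / 2) := by
          rw [← Real.rpow_natCast, ← Real.rpow_mul (by linarith)]
          congr 1
          field_simp
  have hev := ((((((ff_compare θ hθ0 hθ1).and
    ((tendsto_rpow_atTop hθ0).eventually_ge_atTop (max X₀ 1))).and
    (eventually_gt_atTop (1 : ℝ))).and hlog).and
    (ev_pow (-(δ - θ / 2)) (-(δ / 2)) 32 (by nlinarith))).and
    (ev_pow (θ - δ) (-(2 * r * θ)) (2 ^ r * 32) (by nlinarith))).and
    (ev_pow (-δ) (-(2 * r * θ)) 16 (by nlinarith))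
  obtain ⟨x₀, hx₀⟩ := eventually_atTop.mp hev
  obtain ⟨p₀, hp₀⟩ := exists_nat_ge x₀
  refine ⟨p₀, ?_⟩
  intro p _ hp ι S R hS hE h hh M L hL hLB hvol
  have hpx : x₀ ≤ (p : ℝ) := hp₀.trans (by exact_mod_cast hp)
  obtain ⟨⟨⟨⟨⟨⟨⟨-, g1⟩, g2⟩, g3⟩, g4⟩, g5⟩, g6⟩, g7⟩ := hx₀ p hpx
  have hp0 : (0 : ℝ) < p := by linarith
  have hmono : ∀ x y : ℝ, x ≤ y → (p : ℝ) ^ x ≤ (p : ℝ) ^ y := fun x y h =>
    Real.rpow_le_rpow_of_exponent_le g3.le h
  set X : ℝ := (p : ℝ) ^ θ with hX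
  have hX0 : X₀ ≤ X := (le_max_left _ _).trans g2
  have hX1 : 1 ≤ X := (le_max_right _ _).trans g2
  obtain ⟨-, hc2⟩ := hc X hX0
  have hScard : (0 : ℝ) < S.card := by exact_mod_cast hS.card_pos
  have hQ : X ^ (2 / 5 : ℝ) ≤ X := by
    calc X ^ (2 / 5 : ℝ) ≤ X ^ (1 : ℝ) := Real.rpow_le_rpow_of_exponent_le hX1 (by norm_num)
      _ = X := Real.rpow_one X
  have hXδ : X ≤ (p : ℝ) ^ δ := hmono _ _ hθδ
  have hXp : X ^ (2 / 5 : ℝ) < p := by
    rw [hX, ← Real.rpow_mul hp0.le]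
    calc (p : ℝ) ^ (θ * (2 / 5)) < (p : ℝ) ^ (1 : ℝ) :=
          Real.rpow_lt_rpow_of_exponent_lt g3 (by linarith)
      _ = p := Real.rpow_one _
  set γ : ℝ := X ^ (-(2 * (r : ℝ))) / 16 with hγ
  have hγe : X ^ (-(2 * (r : ℝ))) = (p : ℝ) ^ (-(2 * r * θ)) := by
    rw [hX, ← Real.rpow_mul hp0.le]
    congr 1
    ring
  have hγ1 : X ^ (-(2 * (r : ℝ))) ≤ 1 := Real.rpow_le_one_of_one_le_of_nonpos hX1 (by linarith)
  obtain ⟨hcard, heq⟩ := fam_equi S hS R (S.card * (p : ℝ) ^ (-ε)) (by positivity) hE M L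
    ((p : ℝ) ^ δ) γ (X ^ (2 / 5 : ℝ)) (hX1.trans hXδ) hLB hL
    (Real.one_le_rpow hX1 (by norm_num)) hXp (hQ.trans hXδ)
    (by
      have e1 : ∏ j, ((L j : ℝ) / p) = (∏ j, (L j : ℝ)) / (p : ℝ) ^ (r : ℝ) := by
        rw [prod_div_distrib, prod_const, card_univ, Fintype.card_fin, Real.rpow_natCast]
      rw [e1]
      have h1 : (p : ℝ) ^ ((r : ℝ) - ε + δ) / (p : ℝ) ^ (r : ℝ) ≤
          (∏ j, (L j : ℝ)) / (p : ℝ) ^ (r : ℝ) := by gcongr
      rw [← Real.rpow_sub hp0] at h1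
      have h2 : (p : ℝ) ^ (-ε) * (Real.log p + 3) ^ r ≤
          γ / 2 * (p : ℝ) ^ ((r : ℝ) - ε + δ - r) := by
        calc (p : ℝ) ^ (-ε) * (Real.log p + 3) ^ r ≤ (p : ℝ) ^ (-ε) * (p : ℝ) ^ (θ / 2) := by
              gcongr
          _ = (p : ℝ) ^ (-(δ - θ / 2)) * (p : ℝ) ^ (δ - ε) := by
              rw [← Real.rpow_add hp0, ← Real.rpow_add hp0]
              congr 1
              ring
          _ ≤ ((p : ℝ) ^ (-(δ / 2)) / 32) * (p : ℝ) ^ (δ - ε) := by
              gcongr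
              linarith
          _ ≤ ((p : ℝ) ^ (-(2 * r * θ)) / 32) * (p : ℝ) ^ (δ - ε) := by
              gcongr
              · exact g3.le
              · nlinarith
          _ = _ := by
              rw [hγ, hγe]
              have : (r : ℝ) - ε + δ - r = δ - ε := by ring
              rw [this]
              ring
      calc S.card * (p : ℝ) ^ (-ε) * (Real.log p + 3) ^ r
          = S.card * ((p : ℝ) ^ (-ε) * (Real.log p + 3) ^ r) := by ring
        _ ≤ S.card * (γ / 2 * (p : ℝ) ^ ((r : ℝ) - ε + δ - r)) := by gcongr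
        _ ≤ S.card * (γ / 2 * ((∏ j, (L j : ℝ)) / (p : ℝ) ^ (r : ℝ))) := by
            gcongr
        _ = _ := by ring)
    (by
      rw [hγ, hγe]
      have h1 : X ^ (2 / 5 : ℝ) / (p : ℝ) ^ δ ≤ (p : ℝ) ^ (θ - δ) := by
        rw [Real.rpow_sub hp0]
        gcongr
      have h2 : (2 : ℝ) ^ r * (X ^ (2 / 5 : ℝ) / (p : ℝ) ^ δ) ≤ 2 ^ r * (p : ℝ) ^ (θ - δ) := by
        gcongr
      linarith)
    (by
      rw [hγ]
      linarith)
  set A : ℝ := S.card * ∏ j, ((L j : ℝ) / p) with hA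
  have hA0 : 0 < A := by
    rw [hA]
    refine mul_pos hScard (prod_pos fun j _ => div_pos ?_ hp0)
    exact (Real.rpow_pos_of_pos hp0 δ).trans_le (hLB j)
  set s := fam S R M L with hs
  set good : (Σ _ : ι, (Fin r → ℤ)) → Prop := fun z =>
    ∀ j, FarS (h j) (z.2 j) (κ * (θ / 32) * ff p) ((p : ℝ) ^ δ) with hgood
  have hinv : ∀ j, ∃ e : ℤ, ∀ q : ℕ, 1 ≤ q → q ≤ ⌊X⌋₊ → (q : ℤ) ∣ h j * e - 1 := fun j =>
    exists_inv (h j) ⌊X⌋₊ fun l hl hlX => hh j l hl
      (((by exact_mod_cast hlX : (l : ℝ) ≤ (⌊X⌋₊ : ℕ)).trans (Nat.floor_le (by linarith))).trans hXδ)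
  choose e he using hinv
  have he' : ∀ j, ∀ q : ℕ, 1 ≤ q → (q : ℝ) ≤ X → ∀ x y : ℤ,
      (q : ℤ) ∣ e j * x - y ↔ (q : ℤ) ∣ x - h j * y := by
    intro j q hq hqX x y
    have h1 := he j q hq (Nat.le_floor hqX)
    constructor
    · intro h2
      have h3 : x - h j * y = h j * (e j * x - y) - (h j * e j - 1) * x := by ring
      rw [h3]
      exact (h2.mul_left _).sub (h1.mul_right _)
    · intro h2
      have h3 : e j * x - y = e j * (x - h j * y) + (h j * e j - 1) * y := by ring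
      rw [h3]
      exact (h2.mul_left _).add (h1.mul_right _)
  set T : ℝ := (s.card : ℝ) with hT
  set g : ℝ := ((s.filter good).card : ℝ) with hg
  by_contra hlt
  push Not at hlt
  have hg0 : 0 ≤ g := Nat.cast_nonneg _
  have hpδ : 16 * (p : ℝ) ^ (-δ) ≤ X ^ (-(2 * (r : ℝ))) := by rw [hγe]; exact g7
  have hgT : g ≤ 2 * (p : ℝ) ^ (-δ) * T := by
    have h1 : (p : ℝ) ^ (-δ) * A ≤ (p : ℝ) ^ (-δ) * (2 * T) := by
      apply mul_le_mul_of_nonneg_left _ (by positivity)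
      linarith
    linarith
  have hT0 : 0 < T := by linarith
  have hgT2 : g ≤ X ^ (-(2 * (r : ℝ))) / 8 * T := by
    refine hgT.trans ?_
    apply mul_le_mul_of_nonneg_right _ hT0.le
    linarith
  set s' := s.filter (fun z => ¬ good z) with hs'
  have hsplit : ∀ (P : (Σ _ : ι, (Fin r → ℤ)) → Prop) [DecidablePred P],
      ((s'.filter P).card : ℝ) =
      ((s.filter P).card : ℝ) - (((s.filter good).filter P).card : ℝ) := by
    intro P _
    have h1 : s'.filter P = (s.filter P).filter (fun z => ¬ good z) := by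
      rw [hs', filter_comm]
    have h2 : (s.filter good).filter P = (s.filter P).filter good := filter_comm _ _ _
    rw [h1, h2]
    have h3 := card_filter_add_card_filter_not (s := s.filter P) good
    have h4 : ((((s.filter P).filter good).card : ℝ)) +
        (((s.filter P).filter (fun z => ¬ good z)).card : ℝ) = ((s.filter P).card : ℝ) := by
      exact_mod_cast h3
    linarith
  have hs'card : (s'.card : ℝ) = T - g := by
    have := hsplit (fun _ => True)
    simpa [hT, hg] using this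
  have hne : s'.Nonempty := by
    rw [← card_pos]
    have : (0 : ℝ) < s'.card := by
      rw [hs'card]
      nlinarith
    exact_mod_cast this
  obtain ⟨z, hz, hz2⟩ := hc2 _ s' (fun z j => e j * z.2 j) hne (by
    intro q hq hqX ρ₀
    have hqR : (1 : ℝ) ≤ (q : ℝ) ^ r := one_le_pow₀ (by exact_mod_cast hq)
    simp only [he' _ q hq (hqX.trans hQ)]
    set ρ : Fin r → ℤ := fun j => h j * ρ₀ j with hρ
    rw [hsplit, hs'card]
    have h1 := heq q hq hqX ρ
    have h2 : ((((s.filter good).filter (fun z => ∀ j, (q : ℤ) ∣ z.2 j - ρ j)).card : ℕ) : ℝ) ≤ g := by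
      rw [hg]
      exact_mod_cast card_le_card (filter_subset _ _)
    have h3 : 0 ≤ ((((s.filter good).filter (fun z => ∀ j, (q : ℤ) ∣ z.2 j - ρ j)).card : ℕ) : ℝ) :=
      Nat.cast_nonneg _
    have h4 : (T - g) / (q : ℝ) ^ r = T / (q : ℝ) ^ r - g / (q : ℝ) ^ r := sub_div _ _ _
    have h5 : g / (q : ℝ) ^ r ≤ g := div_le_self hg0 hqR
    have h6 : 0 ≤ g / (q : ℝ) ^ r := by positivity
    have h7 : (T - g) * X ^ (-(2 * (r : ℝ))) ≥ T / 2 * X ^ (-(2 * (r : ℝ))) := by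
      apply mul_le_mul_of_nonneg_right _ (by positivity)
      nlinarith
    have h8 : T * (4 * γ) = T / 4 * X ^ (-(2 * (r : ℝ))) := by rw [hγ]; ring
    rw [h8] at h1
    rw [h4]
    have h9 := abs_le.mp h1
    rw [abs_le]
    constructor
    · linarith [h9.1]
    · linarith [h9.2])
  rw [hs', mem_filter] at hz
  apply hz.2
  rw [hgood]
  intro j k hk
  obtain ⟨l, hl, hl2, hl3⟩ := hz2 j (e j * z.2 j + k) (by
    have h6 : |(((e j * z.2 j + k : ℤ)) : ℝ) - ((e j * z.2 j : ℤ) : ℝ)| = |(k : ℝ)| := by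
      push_cast
      congr 1
      ring
    rw [h6]
    refine hk.trans ?_
    have h5 := (g1 X le_rfl (by
      calc X ≤ (p : ℝ) ^ (2 : ℝ) := hmono _ _ (by linarith)
        _ = (p : ℝ) ^ 2 := by norm_num)).1
    calc κ * (θ / 32) * ff p = κ * (θ / 32 * ff p) := by ring
      _ ≤ κ * ff X := mul_le_mul_of_nonneg_left h5 hκ.le
      _ ≤ κ * ff X + 1 := by linarith)
  have hlX : (l : ℝ) ≤ X := hl2.trans (by
    calc X ^ (1 / 10 : ℝ) ≤ X ^ (1 : ℝ) := Real.rpow_le_rpow_of_exponent_le hX1 (by norm_num)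
      _ = X := Real.rpow_one X)
  refine ⟨l, hl, hlX.trans hXδ, ?_⟩
  have h7 := (he' j l hl.one_le hlX (z.2 j) (-k)).1 (by
    have h8 : e j * z.2 j - -k = e j * z.2 j + k := by ring
    rw [h8]
    exact hl3)
  have h9 : z.2 j + k * h j = z.2 j - h j * -k := by ring
  rw [h9]
  exact h7

end Pool.Agent.Run7.h246.LP
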