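import Pool.Agent.Run7.h90.RW.Fam
import Pool.Agent.Run7.h246.LP.Main

/-!
# Progressions through the values of rational functions modulo a prime (helper246)

Adapted from `Pool.Agent.Run7.h90.RW.fam_main` (helper90) to progressions with given differences.
-/

set_option autoImplicit false

open Polynomial Finset Filter

namespace Pool.Agent.Run7.h246.LP

open Pool.Agent.N647.FG (fam)
open Pool.Agent.W147.PS (ff ev_pow)
open Pool.Agent.Run7.h90.RW

/-- the least prime in the class of a residue which is the start of a progression without primes -/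
lemma noprime {p : ℕ} (hp : p.Prime) {z : ℤ} {B y : ℝ} (hy : y < z) (hz : z ≤ p)
    (h : FarS (p : ℤ) z B y) : ∀ q : ℕ, q.Prime → (q : ℤ) ≡ z [ZMOD p] → B * p < q := by
  intro q hq hqz
  by_contra hlt
  push Not at hlt
  have hp0 : (0 : ℝ) < p := by exact_mod_cast hp.pos
  have hpz : (0 : ℤ) < p := by exact_mod_cast hp.pos
  obtain ⟨k, hk⟩ := (Int.modEq_iff_dvd.1 hqz.symm)
  have hk' : (q : ℤ) = z + k * p := by linarith
  have hk0 : 0 ≤ k := by
    by_contra hneg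
    push Not at hneg
    have h1 : k ≤ -1 := by omega
    have h2 : k * (p : ℤ) ≤ -1 * p := mul_le_mul_of_nonneg_right h1 hpz.le
    have h3 : (0 : ℤ) < q := by exact_mod_cast hq.pos
    linarith
  have hz0 : (q : ℝ) = z + k * p := by exact_mod_cast hk'
  by_cases hy0 : y < 0
  · obtain ⟨l, -, h2, -⟩ := h 0 (by
      simp only [Int.cast_zero, abs_zero]
      by_contra hB
      push Not at hB
      have h3 : (0 : ℝ) < q := by exact_mod_cast hq.pos
      have h4 : B * p < 0 := mul_neg_of_neg_of_pos hB hp0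
      linarith)
    have h3 : (0 : ℝ) ≤ l := Nat.cast_nonneg l
    linarith
  push Not at hy0
  obtain ⟨l, h1, h2, h3⟩ := h k (by
    rw [abs_of_nonneg (by exact_mod_cast hk0)]
    have h4 : (k : ℝ) * p ≤ B * p := by linarith
    exact le_of_mul_le_mul_right h4 hp0)
  rw [← hk'] at h3
  have h4 : l ∣ q := by exact_mod_cast h3
  rw [(Nat.prime_dvd_prime_iff_eq h1 hq).1 h4, hz0] at h2
  have h5 : (0 : ℝ) ≤ k * p := mul_nonneg (by exact_mod_cast hk0) hp0.le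
  linarith

/-- **Progressions through the values of rational functions modulo primes** -/
theorem rat_mainS (r : ℕ) (hr : 1 ≤ r) (δ : ℝ) (hδ : 0 < δ) (hδ1 : δ ≤ 1) :
    ∃ κ : ℝ, 0 < κ ∧ ∃ p₀ : ℕ, ∀ p : ℕ, p₀ ≤ p → p.Prime →
    ∀ D : ℕ, (D : ℝ) ≤ (p : ℝ) ^ (δ / 4) →
    ∀ a b : Fin r → (ZMod p)[X], (∀ j, (a j).natDegree ≤ D) → (∀ j, (b j).natDegree ≤ D) →
    (∀ j, b j ≠ 0) →
    (∀ α : Fin r → ZMod p, α ≠ 0 → ∀ c : ZMod p,
      ∑ j, C (α j) * a j * ∏ i ∈ univ.erase j, b i ≠ C c * ∏ j, b j) →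
    ∀ h : Fin r → ℤ, (∀ j, ∀ l : ℕ, l.Prime → (l : ℝ) ≤ (p : ℝ) ^ δ → ¬ (l : ℤ) ∣ h j) →
    ∀ (M : Fin r → ℤ) (L : Fin r → ℕ), (∀ j, (p : ℝ) ^ δ ≤ L j) → (∀ j, L j ≤ p) →
      (p : ℝ) ^ ((r : ℝ) - 1 / 2 + δ) ≤ ∏ j, (L j : ℝ) →
    (p : ℝ) ^ (1 - δ) * ∏ j, ((L j : ℝ) / p) ≤
      ({x : ZMod p | ∀ j, (b j).eval x ≠ 0 ∧ ∃ z : ℤ, M j < z ∧ z ≤ M j + L j ∧
        (z : ZMod p) * (b j).eval x = (a j).eval x ∧
        FarS (h j) z (κ * ff p) ((p : ℝ) ^ δ)}.ncard : ℝ) := by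
  classical
  obtain ⟨κ, hκ, p₁, hmain⟩ := mainS r hr (1 / 2 - δ / 2) (δ / 2) (by linarith) (by linarith)
  have tc : Tendsto (fun q : ℕ => (q : ℝ)) atTop atTop := tendsto_natCast_atTop_atTop
  have hev := ((tc.eventually (ev_pow (δ / 4) (δ / 2) (4 * r) (by linarith))).and
    (tc.eventually (ev_pow (1 - δ) (1 - δ / 2) 2 (by linarith)))).and
    ((eventually_ge_atTop p₁).and (tc.eventually (ev_pow (δ / 4) 1 (2 * r + 1) (by linarith))))
  obtain ⟨p₀, hp₀⟩ := eventually_atTop.mp hev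
  refine ⟨κ, hκ, p₀, ?_⟩
  intro p hpp hp D hDp a b ha hb hb0 hind h hh M L hLδ hLp hvol
  have : Fact p.Prime := ⟨hp⟩
  obtain ⟨⟨g1, g2⟩, g3, g4⟩ := hp₀ p hpp
  have hp1 : (1 : ℝ) < p := by exact_mod_cast hp.one_lt
  have hp0 : (0 : ℝ) < p := by linarith
  have hmono : ∀ x y : ℝ, x ≤ y → (p : ℝ) ^ x ≤ (p : ℝ) ^ y := fun x y h =>
    Real.rpow_le_rpow_of_exponent_le hp1.le h
  have hrD : 4 * ((r : ℝ) * D) ≤ (p : ℝ) ^ (δ / 2) := by
    refine le_trans ?_ g1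
    rw [← mul_assoc]
    gcongr
  have g4R : 2 * ((r : ℝ) * D) + 1 ≤ p := by
    rw [Real.rpow_one] at g4
    have h1 : (1 : ℝ) ≤ (p : ℝ) ^ (δ / 4) := Real.one_le_rpow hp1.le (by positivity)
    have h2 : (r : ℝ) * D ≤ r * (p : ℝ) ^ (δ / 4) := by gcongr
    nlinarith
  have g4N : r * D < p := by
    have h1 : (0 : ℝ) ≤ (r : ℝ) * D := by positivity
    have h2 : (r : ℝ) * D < p := by linarith
    exact_mod_cast h2
  have hcard := card_good p b hb0 D hb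
  have hcard2 : (p : ℝ) / 2 ≤ (good p b).card := by linarith
  have hne : (good p b).Nonempty := by
    rw [← card_pos]
    have : (0 : ℝ) < (good p b).card := by linarith
    exact_mod_cast this
  have hsum : ∀ α : Fin r → ZMod p, α ≠ 0 →
      ‖∑ x ∈ good p b, (ZMod.stdAddChar (∑ j, α j * ((a j).eval x / (b j).eval x)) : ℂ)‖ ≤
        (good p b).card * (p : ℝ) ^ (-(1 / 2 - δ / 2)) := by
    intro α hα
    have h1 := fam_sum p a b hb0 D ha hb g4N hind α hα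
    refine h1.trans ?_
    push_cast
    have h2 : Real.sqrt p = (p : ℝ) ^ (1 / 2 : ℝ) := Real.sqrt_eq_rpow _
    rw [h2]
    calc 2 * ((r : ℝ) * D) * (p : ℝ) ^ (1 / 2 : ℝ) = (4 * ((r : ℝ) * D)) / 2 * (p : ℝ) ^ (1 / 2 : ℝ) := by ring
      _ ≤ (p : ℝ) ^ (δ / 2) / 2 * (p : ℝ) ^ (1 / 2 : ℝ) := by gcongr
      _ = (p : ℝ) / 2 * (p : ℝ) ^ (-(1 / 2 - δ / 2)) := by
          have h3 : (p : ℝ) ^ (δ / 2) * (p : ℝ) ^ (1 / 2 : ℝ) = p * (p : ℝ) ^ (-(1 / 2 - δ / 2)) := by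
            rw [← Real.rpow_add hp0]
            nth_rewrite 2 [← Real.rpow_one (p : ℝ)]
            rw [← Real.rpow_add hp0]
            congr 1
            ring
          linear_combination h3 / 2
      _ ≤ _ := by gcongr
  have hm := hmain p g3 (ZMod p) (good p b) (fun x j => (a j).eval x / (b j).eval x) hne hsum h
    (fun j l hl hlp => hh j l hl (hlp.trans (hmono _ _ (by linarith)))) M L hLp
    (fun j => (hmono _ _ (by linarith)).trans (hLδ j))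
    ((hmono _ _ (by linarith)).trans hvol)
  set s := (fam (good p b) (fun x j => (a j).eval x / (b j).eval x) M L).filter
    (fun z => ∀ j, FarS (h j) (z.2 j) (κ * ff p) ((p : ℝ) ^ (δ / 2))) with hs
  have hPi : 0 ≤ ∏ j, ((L j : ℝ) / p) := prod_nonneg fun j _ => by positivity
  have hlow : (p : ℝ) ^ (1 - δ) * ∏ j, ((L j : ℝ) / p) ≤
      (p : ℝ) ^ (-(δ / 2)) * ((good p b).card * ∏ j, ((L j : ℝ) / p)) := by
    rw [← mul_assoc]
    apply mul_le_mul_of_nonneg_right _ hPi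
    calc (p : ℝ) ^ (1 - δ) ≤ (p : ℝ) ^ (1 - δ / 2) / 2 := by linarith
      _ = (p : ℝ) ^ (-(δ / 2)) * (p / 2) := by
          have : (p : ℝ) ^ (1 - δ / 2) = p * (p : ℝ) ^ (-(δ / 2)) := by
            nth_rewrite 2 [← Real.rpow_one (p : ℝ)]
            rw [← Real.rpow_add hp0]
            congr 1
          rw [this]
          ring
      _ ≤ _ := by gcongr
  refine hlow.trans (hm.trans ?_)
  have hmem : ∀ w ∈ s, w.1 ∈ good p b ∧ (∀ j, M j < w.2 j ∧ w.2 j ≤ M j + L j ∧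
      ((w.2 j : ℤ) : ZMod p) = (a j).eval w.1 / (b j).eval w.1) ∧
      ∀ j, FarS (h j) (w.2 j) (κ * ff p) ((p : ℝ) ^ (δ / 2)) := by
    intro w hw
    rw [hs, mem_filter] at hw
    obtain ⟨hw1, hw2⟩ := hw
    unfold fam at hw1
    rw [mem_sigma, Fintype.mem_piFinset] at hw1
    refine ⟨hw1.1, fun j => ?_, hw2⟩
    have := hw1.2 j
    rw [mem_filter, mem_Ioc] at this
    exact ⟨this.1.1, this.1.2, this.2⟩
  have hfin : ({x : ZMod p | ∀ j, (b j).eval x ≠ 0 ∧ ∃ z : ℤ, M j < z ∧ z ≤ M j + L j ∧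
        (z : ZMod p) * (b j).eval x = (a j).eval x ∧
        FarS (h j) z (κ * ff p) ((p : ℝ) ^ δ)}).Finite := Set.toFinite _
  have hinj : Set.InjOn (fun w : (Σ _ : ZMod p, (Fin r → ℤ)) => w.1) (s : Set _) := by
    intro w hw w' hw' hww
    obtain ⟨h1, h2, -⟩ := hmem w hw
    obtain ⟨h1', h2', -⟩ := hmem w' hw'
    obtain ⟨x, z⟩ := w
    obtain ⟨x', z'⟩ := w'
    simp only at hww h2 h2'
    subst hww
    congr 1
    funext j
    obtain ⟨e1, e2, e3⟩ := h2 j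
    obtain ⟨e1', e2', e3'⟩ := h2' j
    have e4 : ((z j - z' j : ℤ) : ZMod p) = 0 := by
      push_cast
      rw [e3, e3', sub_self]
    rw [ZMod.intCast_zmod_eq_zero_iff_dvd] at e4
    have hLpj := hLp j
    have e5 : |z j - z' j| < (p : ℤ) := by
      rw [abs_lt]
      constructor <;> omega
    have := Int.eq_zero_of_abs_lt_dvd e4 e5
    omega
  have h1 : s.card = (s.image (fun w : (Σ _ : ZMod p, (Fin r → ℤ)) => w.1)).card :=
    (card_image_of_injOn hinj).symm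
  rw [h1]
  have h2 : ((s.image (fun w : (Σ _ : ZMod p, (Fin r → ℤ)) => w.1) : Finset (ZMod p)) : Set (ZMod p)) ⊆
      {x : ZMod p | ∀ j, (b j).eval x ≠ 0 ∧ ∃ z : ℤ, M j < z ∧ z ≤ M j + L j ∧
        (z : ZMod p) * (b j).eval x = (a j).eval x ∧
        FarS (h j) z (κ * ff p) ((p : ℝ) ^ δ)} := by
    intro x hx
    rw [mem_coe, mem_image] at hx
    obtain ⟨w, hw, rfl⟩ := hx
    obtain ⟨e1, e2, e3⟩ := hmem w hw
    intro j
    refine ⟨(mem_good p b w.1).1 e1 j, w.2 j, (e2 j).1, (e2 j).2.1, ?_, ?_⟩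
    · rw [(e2 j).2.2, div_mul_cancel₀ _ ((mem_good p b w.1).1 e1 j)]
    intro m hmz
    obtain ⟨l, hl1, hl2, hl3⟩ := e3 j m hmz
    exact ⟨l, hl1, hl2.trans (hmono _ _ (by linarith)), hl3⟩
  have h3 := Set.ncard_le_ncard h2 hfin
  rw [Set.ncard_coe_finset] at h3
  exact_mod_cast h3

end Pool.Agent.Run7.h246.LP
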