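import Pool.Agent.Run7.h246.LP.Cone
import Pool.Agent.Run7.h246.LP.Rat
import Pool.Agent.Run7.h246.MC.Gen

/-!
# Large least primes in the residue classes of families which are stable under a large group of scalars (helper246)
-/

set_option autoImplicit false
set_option linter.unusedSectionVars false

open Finset Filter Matrix

namespace Pool.Agent.Run7.h246.LP

open Pool.Agent.W147.PS (ff ev_pow)
open Pool.Agent.Run7.h246.MC

/-- a prime has no prime factor which is at most `p ^ δ`, `δ < 1` -/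
lemma prime_rough {p : ℕ} (hp : p.Prime) {δ : ℝ} (hδ : δ < 1) :
    ∀ l : ℕ, l.Prime → (l : ℝ) ≤ (p : ℝ) ^ δ → ¬ (l : ℤ) ∣ (p : ℤ) := by
  intro l hl hlm hd
  have hp1 : (1 : ℝ) < p := by exact_mod_cast hp.one_lt
  have h2 : l ∣ p := by exact_mod_cast hd
  rw [(Nat.prime_dvd_prime_iff_eq hl hp).1 h2] at hlm
  have h3 : (p : ℝ) ^ δ < (p : ℝ) ^ (1 : ℝ) := Real.rpow_lt_rpow_of_exponent_lt hp1 hδ
  rw [Real.rpow_one] at h3
  linarith

open scoped Classical in
/-- **Large least primes in families of residue classes which are stable under a large group of scalars.** -/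
theorem class_main (n : ℕ) (hn : 1 ≤ n) (ε δ : ℝ) (hε0 : 0 ≤ ε) (hδ : 0 < δ) (hδ1 : δ ≤ 1) :
    ∃ κ₀ : ℝ, 0 < κ₀ ∧ ∃ p₀ : ℕ, ∀ (p : ℕ) [Fact p.Prime], p₀ ≤ p →
    ∀ H : Subgroup (ZMod p)ˣ, (p : ℝ) ^ (1 / 2 + ε) ≤ 2 * Nat.card H →
    ∀ (κ : Type) [Fintype κ], Fintype.card κ = n →
    ∀ w : κ → ℤ, (∀ j, w j ≠ 0 ∧ |(w j : ℝ)| ≤ (p : ℝ) ^ (δ / 4)) →
    ∀ (ι : Type) (S : Finset ι) (R : ι → κ → ZMod p) (act : (ZMod p)ˣ → ι → ι), S.Nonempty →
    (∀ t ∈ H, ∀ i ∈ S, act t i ∈ S) → (∀ t ∈ H, Set.InjOn (act t) S) →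
    (∀ t ∈ H, ∀ i ∈ S, ∀ j, R (act t i) j = ((t ^ w j : (ZMod p)ˣ) : ZMod p) * R i j) →
    (∀ α : κ → ZMod p, α ≠ 0 →
      ((S.filter fun i => ∀ d : ℤ, ∑ j with w j = d, α j * R i j = 0).card : ℝ) ≤
        S.card * (p : ℝ) ^ (-ε)) →
    ∀ (M : κ → ℤ) (L : κ → ℕ),
      (∀ j, (p : ℝ) ^ δ ≤ M j ∧ (p : ℝ) ^ δ ≤ L j ∧ M j + L j ≤ p) →
      (p : ℝ) ^ ((n : ℝ) - ε + δ) ≤ ∏ j, (L j : ℝ) →
    (p : ℝ) ^ (-δ) * (S.card * ∏ j, ((L j : ℝ) / p)) ≤
      ((S.filter (fun i => ∀ j, ∃ c : ℤ, M j < c ∧ c ≤ M j + L j ∧ (c : ZMod p) = R i j ∧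
        ∀ q : ℕ, q.Prime → (q : ℤ) ≡ c [ZMOD p] → κ₀ * p * ff p < q)).card : ℝ) := by
  obtain ⟨κ₀, hκ, p₀, hmain⟩ := coneS n hn ε δ hε0 hδ hδ1
  refine ⟨κ₀, hκ, p₀, ?_⟩
  intro p hpf hpp H hH κ _ hcard w hw ι S R act hS hmem hinj hact hcon M L hML hvol
  have hp : p.Prime := Fact.out
  have hp1 : (1 : ℝ) < p := by exact_mod_cast hp.one_lt
  have hp0 : (0 : ℝ) < p := by linarith
  have hne : Nonempty κ := Fintype.card_pos_iff.1 (by omega)
  obtain ⟨j₀⟩ := hne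
  have hδlt : δ < 1 := by
    by_contra hcon
    have h0 : δ = 1 := le_antisymm hδ1 (not_lt.1 hcon)
    obtain ⟨h1, h2, h3⟩ := hML j₀
    rw [h0, Real.rpow_one] at h1 h2
    have h4 : (M j₀ : ℝ) + L j₀ ≤ p := by exact_mod_cast h3
    linarith
  have hMpos : ∀ j, (0 : ℤ) < M j := fun j => by
    have h3 : (0 : ℝ) < M j := lt_of_lt_of_le (Real.rpow_pos_of_pos hp0 _) (hML j).1
    exact_mod_cast h3
  have h1 := hmain p hpp H hH κ hcard w hw ι S R act hS hmem hinj hact hcon (fun _ => (p : ℤ))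
    (fun _ => prime_rough hp hδlt) M L (fun j => ⟨(hML j).2.1, by
      have h2 := (hML j).2.2
      have h4 := hMpos j
      omega⟩) hvol
  refine h1.trans ?_
  apply Nat.cast_le.2
  apply card_le_card
  intro i hi
  rw [mem_filter] at hi ⊢
  refine ⟨hi.1, fun j => ?_⟩
  obtain ⟨c, h3, h4, h5, h6⟩ := hi.2 j
  refine ⟨c, h3, h4, h5, fun q hq hqc => ?_⟩
  have h7 : (p : ℝ) ^ δ < c := lt_of_le_of_lt (hML j).1 (by exact_mod_cast h3)
  have h8 := noprime hp h7 (h4.trans (hML j).2.2) h6 q hq hqc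
  refine lt_of_le_of_lt (le_of_eq ?_) h8
  ring

open scoped Classical in
/-- **Large least primes in sets of vectors of residue classes which are stable under a large group of
scalars.** -/
theorem class_sets (n : ℕ) (hn : 1 ≤ n) (ε δ : ℝ) (hε0 : 0 ≤ ε) (hδ : 0 < δ) (hδ1 : δ ≤ 1) :
    ∃ κ₀ : ℝ, 0 < κ₀ ∧ ∃ p₀ : ℕ, ∀ p : ℕ, p₀ ≤ p → p.Prime →
    ∀ H : Subgroup (ZMod p)ˣ, (p : ℝ) ^ (1 / 2 + ε) ≤ 2 * Nat.card H →
    ∀ w : Fin n → ℤ, (∀ j, w j ≠ 0 ∧ |(w j : ℝ)| ≤ (p : ℝ) ^ (δ / 4)) →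
    ∀ S : Finset (Fin n → ZMod p), S.Nonempty →
    (∀ t ∈ H, ∀ x ∈ S, (fun j => ((t ^ w j : (ZMod p)ˣ) : ZMod p) * x j) ∈ S) →
    ((p : ℝ) ^ ((n : ℝ) - 1 + ε) ≤ S.card ∨ ∀ α : Fin n → ZMod p, α ≠ 0 →
      ((S.filter fun x => ∀ d : ℤ, ∑ j with w j = d, α j * x j = 0).card : ℝ) ≤
        S.card * (p : ℝ) ^ (-ε)) →
    ∀ (M : Fin n → ℤ) (L : Fin n → ℕ),
      (∀ j, (p : ℝ) ^ δ ≤ M j ∧ (p : ℝ) ^ δ ≤ L j ∧ M j + L j ≤ p) →
      (p : ℝ) ^ ((n : ℝ) - ε + δ) ≤ ∏ j, (L j : ℝ) →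
    (p : ℝ) ^ (-δ) * (S.card * ∏ j, ((L j : ℝ) / p)) ≤
      ((S.filter (fun x => ∀ j, ∃ c : ℤ, M j < c ∧ c ≤ M j + L j ∧ (c : ZMod p) = x j ∧
        ∀ q : ℕ, q.Prime → (q : ℤ) ≡ c [ZMOD p] → κ₀ * p * ff p < q)).card : ℝ) := by
  obtain ⟨κ₀, hκ, p₀, hmain⟩ := class_main n hn ε δ hε0 hδ hδ1
  refine ⟨κ₀, hκ, p₀, ?_⟩
  intro p hpp hp H hH w hw S hS hst hcon M L hML hvol
  have : Fact p.Prime := ⟨hp⟩
  have hp0 : (0 : ℝ) < p := by exact_mod_cast hp.pos
  have hcon' : ∀ α : Fin n → ZMod p, α ≠ 0 →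
      ((S.filter fun x => ∀ d : ℤ, ∑ j with w j = d, α j * x j = 0).card : ℝ) ≤
        S.card * (p : ℝ) ^ (-ε) := by
    rcases hcon with h | h
    · intro α hα
      refine (card_plane p w S α hα).trans ?_
      calc (p : ℝ) ^ ((n : ℝ) - 1) = (p : ℝ) ^ ((n : ℝ) - 1 + ε) * (p : ℝ) ^ (-ε) := by
            rw [← Real.rpow_add hp0]
            congr 1
            ring
        _ ≤ _ := mul_le_mul_of_nonneg_right h (by positivity)
    · exact h
  have h1 := hmain p hpp H hH (Fin n) (Fintype.card_fin n) w hw (Fin n → ZMod p) S (fun x => x)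
    (fun t x j => ((t ^ w j : (ZMod p)ˣ) : ZMod p) * x j) hS hst
    (fun t _ x _ y _ hxy => funext fun j => mul_left_cancel₀ (Units.ne_zero _) (congrFun hxy j))
    (fun _ _ _ _ _ => rfl) (fun α hα => by convert hcon' α hα) M L hML hvol
  convert h1

open scoped Classical in
/-- **Large least primes in the residue classes of linear functionals of products of powers of matrices.** -/
theorem class_mat (n r k m : ℕ) (hn : 1 ≤ n) (δ : ℝ) (hδ : 0 < δ) (hδ1 : δ ≤ 1) :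
    ∃ κ₀ : ℝ, 0 < κ₀ ∧ ∃ p₀ : ℕ, ∀ p : ℕ, p₀ ≤ p → p.Prime →
    ∀ e : Fin n → Fin r → ℤ, (∀ j, e j ≠ 0 ∧ ∀ i, |e j i| ≤ m) →
    ∀ H : Fin n → Matrix (Fin k) (Fin k) (ZMod p),
      (∀ α : Fin n → ZMod p, α ≠ 0 → ∃ v, ∑ j with e j = v, α j • H j ≠ 0) →
    ∀ (M : Fin n → ℤ) (L : Fin n → ℕ),
      (∀ j, (p : ℝ) ^ δ ≤ M j ∧ (p : ℝ) ^ δ ≤ L j ∧ M j + L j ≤ p) →
      (p : ℝ) ^ ((n : ℝ) - 1 / 2 + δ) ≤ ∏ j, (L j : ℝ) →
    (p : ℝ) ^ (-δ) * ((Nat.card (GL (Fin k) (ZMod p)) : ℝ) ^ r * ∏ j, ((L j : ℝ) / p)) ≤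
      ({A : Fin r → GL (Fin k) (ZMod p) | ∀ j, ∃ c : ℤ, M j < c ∧ c ≤ M j + L j ∧
        (c : ZMod p) = trace (H j * ((word A (e j) : GL (Fin k) (ZMod p)) :
          Matrix (Fin k) (Fin k) (ZMod p))) ∧
        ∀ q : ℕ, q.Prime → (q : ℤ) ≡ c [ZMOD p] → κ₀ * p * ff p < q}.ncard : ℝ) := by
  obtain ⟨κ₀, hκ, p₁, hmain⟩ := class_main n hn (1 / 2) δ (by norm_num) hδ hδ1
  have tc : Tendsto (fun q : ℕ => (q : ℝ)) atTop atTop := tendsto_natCast_atTop_atTop
  have hev := (((eventually_ge_atTop p₁).and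
    (((tendsto_rpow_atTop (show (0 : ℝ) < δ / 4 by positivity)).comp tc).eventually_ge_atTop
      (wtB r m : ℝ))).and (eventually_ge_atTop (2 * k))).and
    (((tendsto_rpow_atTop (show (0 : ℝ) < 1 / 2 by norm_num)).comp tc).eventually_ge_atTop
      (2 * ((m : ℝ) + 1)))
  obtain ⟨p₀, hp₀⟩ := eventually_atTop.mp hev
  refine ⟨κ₀, hκ, p₀, ?_⟩
  intro p hpp hp e hem H hH M L hL hvol
  have : Fact p.Prime := ⟨hp⟩
  obtain ⟨⟨⟨g1, g2⟩, g3⟩, g4⟩ := hp₀ p hpp
  simp only [Function.comp_apply] at g2 g4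
  have hp1 : (1 : ℝ) < p := by exact_mod_cast hp.one_lt
  have hp2 : (2 : ℝ) ≤ p := by exact_mod_cast hp.two_le
  have hp0 : (0 : ℝ) < p := by linarith
  have heE : ∀ j, e j ∈ exps r m := fun j => (mem_exps _).2 (hem j)
  set G := GL (Fin k) (ZMod p) with hG
  set R : (Fin r → G) → Fin n → ZMod p := fun A j =>
    trace (H j * ((word A (e j) : G) : Matrix (Fin k) (Fin k) (ZMod p))) with hR
  set act : (ZMod p)ˣ → (Fin r → G) → (Fin r → G) := fun t A i =>
    scal (t ^ (2 * m + 1) ^ (i : ℕ)) * A i with hact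
  set w : Fin n → ℤ := fun j => wt m (e j) with hw
  have hm1 := hmain p g1 ⊤ (by
      rw [Nat.card_eq_fintype_card, Fintype.card_congr (Subgroup.topEquiv (G := (ZMod p)ˣ)).toEquiv,
        ZMod.card_units_eq_totient, Nat.totient_prime hp, Nat.cast_sub hp.one_lt.le]
      norm_num
      linarith)
    (Fin n) (Fintype.card_fin n) w
    (fun j => ⟨wt_ne_zero (heE j), by
      refine le_trans ?_ g2
      have := wt_le (heE j)
      exact_mod_cast this⟩) (Fin r → G) univ R act univ_nonempty (fun _ _ _ _ => mem_univ _)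
    (by
      intro t _ A _ A' _ h
      funext i
      have := congrFun h i
      simp only [hact] at this
      exact mul_left_cancel this)
    (by
      intro t _ A _ j
      simp only [hR, hact, hw]
      rw [word_scal, Units.val_mul, scal_val, Matrix.scalar_apply, ← Matrix.smul_eq_diagonal_mul,
        Matrix.mul_smul, Matrix.trace_smul, smul_eq_mul]
      congr 2
      unfold wt
      rw [← zpow_sum]
      refine prod_congr rfl fun i _ => ?_
      rw [← zpow_natCast, ← _root_.zpow_mul]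
      congr 1
      push_cast
      ring)
    (by
      intro α hα
      obtain ⟨v, hv⟩ := hH α hα
      set K : Matrix (Fin k) (Fin k) (ZMod p) := ∑ j with e j = v, α j • H j with hK
      obtain ⟨j0, hj0, -⟩ := exists_ne_zero_of_sum_ne_zero hv
      have hjv : e j0 = v := (mem_filter.1 hj0).2
      have hvE : v ∈ exps r m := hjv ▸ heE j0
      have he := (mem_exps v).1 hvE
      have h2 := count_word (F := ZMod p) (k := k) (by rw [ZMod.card]; exact g3) m r v he.1 he.2 K hv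
      have h3 : ∀ A : Fin r → G, ∑ j with w j = wt m v, α j * R A j =
          trace (K * ((word A v : G) : Matrix (Fin k) (Fin k) (ZMod p))) := by
        intro A
        have h4 : (univ.filter fun j : Fin n => w j = wt m v) =
            univ.filter fun j : Fin n => e j = v := by
          ext j
          rw [mem_filter, mem_filter]
          refine and_congr_right fun _ => ⟨fun h => wt_inj (heE j) hvE h, fun h => by
            simp only [hw]
            rw [h]⟩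
        rw [h4, hK, Finset.sum_mul, Matrix.trace_sum]
        refine sum_congr rfl fun j hj => ?_
        simp only [hR]
        rw [(mem_filter.1 hj).2, Matrix.smul_mul, Matrix.trace_smul, smul_eq_mul]
      have h5 : (univ.filter fun A : Fin r → G =>
          ∀ d : ℤ, ∑ j with w j = d, α j * R A j = 0).card ≤
          (univ.filter (fun A : Fin r → G => trace (K * ((word A v : G) :
            Matrix (Fin k) (Fin k) (ZMod p))) = 0)).card := by
        apply card_le_card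
        intro A hA
        rw [mem_filter] at hA ⊢
        refine ⟨mem_univ _, ?_⟩
        rw [← h3]
        exact hA.2 _
      have h6 : ((univ.filter fun A : Fin r → G =>
          ∀ d : ℤ, ∑ j with w j = d, α j * R A j = 0).card : ℝ) * p ≤
          2 * (m + 1) * (univ : Finset (Fin r → G)).card := by
        rw [ZMod.card] at h2
        have h7 := (Nat.mul_le_mul_right p h5).trans h2
        rw [card_univ, Fintype.card_fun, Fintype.card_fin]
        exact_mod_cast h7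
      have h8 : 2 * ((m : ℝ) + 1) / p ≤ (p : ℝ) ^ (-(1 / 2) : ℝ) := by
        rw [div_le_iff₀ hp0]
        calc 2 * ((m : ℝ) + 1) ≤ (p : ℝ) ^ (1 / 2 : ℝ) := g4
          _ = (p : ℝ) ^ (-(1 / 2) : ℝ) * p := by
              nth_rewrite 3 [← Real.rpow_one (p : ℝ)]
              rw [← Real.rpow_add hp0]
              congr 1
              norm_num
      calc ((univ.filter fun A : Fin r → G =>
          ∀ d : ℤ, ∑ j with w j = d, α j * R A j = 0).card : ℝ)
          ≤ 2 * (m + 1) * (univ : Finset (Fin r → G)).card / p := by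
            rw [le_div_iff₀ hp0]
            exact h6
        _ = (univ : Finset (Fin r → G)).card * (2 * ((m : ℝ) + 1) / p) := by ring
        _ ≤ _ := by gcongr)
    M L hL hvol
  rw [card_univ, Fintype.card_fun, Fintype.card_fin] at hm1
  rw [Nat.card_eq_fintype_card]
  push_cast at hm1
  refine hm1.trans ?_
  have hsub : ((univ.filter (fun A : Fin r → G => ∀ j : Fin n, ∃ c : ℤ, M j < c ∧
      c ≤ M j + L j ∧ (c : ZMod p) = R A j ∧
        ∀ q : ℕ, q.Prime → (q : ℤ) ≡ c [ZMOD p] → κ₀ * p * ff p < q) : Finset (Fin r → G)) :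
          Set (Fin r → G)) ⊆
      {A : Fin r → G | ∀ j, ∃ c : ℤ, M j < c ∧ c ≤ M j + L j ∧
        (c : ZMod p) = trace (H j * ((word A (e j) : G) : Matrix (Fin k) (Fin k) (ZMod p))) ∧
        ∀ q : ℕ, q.Prime → (q : ℤ) ≡ c [ZMOD p] → κ₀ * p * ff p < q} := by
    intro A hA
    rw [mem_coe, mem_filter] at hA
    exact hA.2
  refine Nat.cast_le.2 (le_trans (le_of_eq ?_) (Set.ncard_le_ncard hsub (Set.toFinite _)))
  rw [Set.ncard_coe_finset]
  congr!

end Pool.Agent.Run7.h246.LP
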